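import Pool.Agent.Helper78.TW.StA

set_option autoImplicit false

namespace Pool.Agent.Helper69.TW

open Pool.Agent.Helper14.CV Pool.Agent.Helper28.WK Pool.Agent.Helper78.TW

/-- CM2: iterates of `T_3` and `T_5`. -/
theorem hCm2 : StCm2 := by
  intro hS hsh R inst n G hG i j
  have p3 : Nat.Prime 3 := by norm_num
  have p5 : Nat.Prime 5 := by norm_num
  have h5 : ∀ k : ℕ, Sym 0 n ((Tl 5 1)^[k] G) ∧
      ∀ i' j' : ℕ, ev 1 ((Tl 5 1)^[k] G) i' j' = ev 1 G i' (j' + k) := by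
    intro k
    induction k with
    | zero => exact ⟨hG, fun i' j' => rfl⟩
    | succ k ih =>
      obtain ⟨ihS, ihE⟩ := ih
      rw [Function.iterate_succ_apply']
      refine ⟨hS R inst n 5 _ p5 (by norm_num) ihS, fun i' j' => ?_⟩
      rw [(hsh R inst n _ ihS i' j').2, ihE]
      congr 1
      omega
  have h3 : ∀ k : ℕ, Sym 0 n ((Tl 3 1)^[k] ((Tl 5 1)^[j] G)) ∧
      ∀ i' j' : ℕ, ev 1 ((Tl 3 1)^[k] ((Tl 5 1)^[j] G)) i' j' = ev 1 G (i' + k) (j' + j) := by
    intro k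
    induction k with
    | zero => exact ⟨(h5 j).1, fun i' j' => (h5 j).2 i' j'⟩
    | succ k ih =>
      obtain ⟨ihS, ihE⟩ := ih
      rw [Function.iterate_succ_apply']
      refine ⟨hS R inst n 3 _ p3 (by norm_num) ihS, fun i' j' => ?_⟩
      rw [(hsh R inst n _ ihS i' j').1, ihE]
      congr 1
      omega
  exact h3 i

end Pool.Agent.Helper69.TW
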